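import Pool.Agent.Y195.RK.Step

/-!
# Genericity theorem by a dimension count (task RK-GEN of Y269)
-/

set_option autoImplicit false
set_option linter.unusedSectionVars false

namespace Pool.Agent.Y195.RK

open Pool.Agent.Y269.RK
open scoped ComplexOrder

variable {m M : ℕ} {I E Z : Type} [Fintype I] [DecidableEq I]
  [NormedAddCommGroup E] [NormedSpace ℝ E] [FiniteDimensional ℝ E]
  [NormedAddCommGroup Z] [NormedSpace ℂ Z] [FiniteDimensional ℂ Z]

open Classical in
/-- the dimension added by a vector -/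
noncomputable def cost (n ρ : ℕ) (B : Finset (Fin m × Fin M)) (κ : Fin m × Fin M) : ℕ :=
  if κ ∈ B then 2 * (n - sN B κ) else 2 * M + 2 * (n - ρ)

theorem par_stage (hI : S_PAR_IMAGE) (hM : S_PAR_MONO) (hR : S_PAR_PROD) (hE : S_ELIM)
    {S : Set E} {P : E → Matrix I I ℂ} {w : Fin m → Fin M → I → ℂ}
    {Ψ : Fin m → E → (Z →L[ℂ] (I → ℂ))} {B : Finset (Fin m × Fin M)} {ρ D : ℕ}
    (hS : Par D S)
    (hP : ∀ i j, ContDiff ℝ 1 fun x => P x i j) (hΨ : ∀ c, ContDiff ℝ 1 (Ψ c))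
    (hpsd : ∀ x ∈ S, (P x).PosSemidef)
    (hρ : ∀ x ∈ S, ρ ≤ (P x).rank) (hsurj : ∀ x ∈ S, ∀ c, Function.Surjective (Ψ c x))
    (j : ℕ) (hj : j ≤ m * M) :
    Par (D + ∑ κ ∈ Finset.univ.filter (fun κ : Fin m × Fin M => ix κ < j),
      cost (Module.finrank ℂ Z) ρ B κ) (Tj S P w Ψ B j) := by
  classical
  induction j with
  | zero =>
    have e : (Finset.univ.filter fun κ : Fin m × Fin M => ix κ < 0) = ∅ :=
      Finset.filter_eq_empty_iff.mpr fun _ _ => Nat.not_lt_zero _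
    rw [e, Finset.sum_empty, add_zero]
    refine hM _ _ _ _ _ le_rfl ?_ (hI D E (E × (Fin m → Fin M → Z)) S (fun x => (x, 0)) hS
      (LocallyLipschitz.prodMk_right 0).locallyLipschitzOn)
    rintro q ⟨p, hp, rfl⟩
    refine ⟨p.1, hp.mem, ?_⟩
    refine Prod.ext rfl ?_
    funext c a
    show (0 : Z) = if ix (c, a) < 0 then p.2 c a else 0
    rw [if_neg (Nat.not_lt_zero _)]
  | succ j ih =>
    obtain ⟨κ, hκ⟩ := ix_surj (m := m) (M := M) j (by omega)
    have ih' := ih (by omega)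
    have e : (Finset.univ.filter fun κ' : Fin m × Fin M => ix κ' < j + 1) =
        insert κ (Finset.univ.filter fun κ' : Fin m × Fin M => ix κ' < j) := by
      ext κ'
      simp only [Finset.mem_filter, Finset.mem_univ, true_and, Finset.mem_insert]
      constructor
      · intro h
        rcases Nat.lt_or_ge (ix κ') j with h1 | h1
        · exact Or.inr h1
        · exact Or.inl (ix_inj (by omega))
      · rintro (rfl | h)
        · omega
        · omega
    have hnot : κ ∉ Finset.univ.filter fun κ' : Fin m × Fin M => ix κ' < j := by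
      simp only [Finset.mem_filter, Finset.mem_univ, true_and]
      omega
    rw [e, Finset.sum_insert hnot, add_comm (cost _ _ _ _), ← add_assoc]
    subst hκ
    by_cases hB : κ ∈ B
    · have : cost (Module.finrank ℂ Z) ρ B κ = 2 * (Module.finrank ℂ Z - sN B κ) := if_pos hB
      rw [this]
      exact step_in hI hM hE hP hΨ hpsd hsurj κ _ ih'
    · have : cost (Module.finrank ℂ Z) ρ B κ = 2 * M + 2 * (Module.finrank ℂ Z - ρ) := if_neg hB
      rw [this]
      exact step_out hI hM hR hE hP hΨ hρ hsurj κ hB _ ih'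

/-! ### the count -/

theorem pairs_count (B : Finset (Fin m × Fin M)) :
    B.card ^ 2 ≤ 2 * (∑ κ ∈ B, sN B κ) + B.card * M := by
  classical
  have h1 : B.card ^ 2 = ∑ κ ∈ B, B.card := by
    rw [Finset.sum_const, smul_eq_mul, sq]
  have h2 : ∀ κ ∈ B, B.card = sN B κ + (B.filter fun κ' => κ.1 < κ'.1).card +
      (B.filter fun κ' => κ'.1 = κ.1).card := by
    intro κ _
    unfold sN
    rw [← Finset.card_union_of_disjoint, ← Finset.card_union_of_disjoint]
    · congr 1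
      ext κ'
      simp only [Finset.mem_union, Finset.mem_filter]
      constructor
      · intro h
        rcases lt_trichotomy κ'.1 κ.1 with h3 | h3 | h3
        · exact Or.inl (Or.inl ⟨h, h3⟩)
        · exact Or.inr ⟨h, h3⟩
        · exact Or.inl (Or.inr ⟨h, h3⟩)
      · rintro ((h | h) | h)
        · exact h.1
        · exact h.1
        · exact h.1
    · rw [Finset.disjoint_left]
      intro κ' h3 h4
      rw [Finset.mem_union, Finset.mem_filter, Finset.mem_filter] at h3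
      rw [Finset.mem_filter] at h4
      rcases h3 with h3 | h3
      · exact absurd h4.2 (ne_of_lt h3.2)
      · exact absurd h4.2 (ne_of_gt h3.2)
    · rw [Finset.disjoint_left]
      intro κ' h3 h4
      rw [Finset.mem_filter] at h3 h4
      exact absurd h4.2 (not_lt_of_gt h3.2)
  have h3 : ∑ κ ∈ B, (B.filter fun κ' => κ.1 < κ'.1).card = ∑ κ ∈ B, sN B κ := by
    unfold sN
    simp_rw [Finset.card_filter]
    rw [Finset.sum_comm]
  have h4 : ∀ κ ∈ B, (B.filter fun κ' => κ'.1 = κ.1).card ≤ M := by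
    intro κ _
    have : (B.filter fun κ' => κ'.1 = κ.1) ⊆ Finset.univ.image fun a : Fin M => (κ.1, a) := by
      intro κ' h
      rw [Finset.mem_filter] at h
      rw [Finset.mem_image]
      exact ⟨κ'.2, Finset.mem_univ _, Prod.ext h.2.symm rfl⟩
    refine (Finset.card_le_card this).trans (Finset.card_image_le.trans ?_)
    rw [Finset.card_univ, Fintype.card_fin]
  rw [h1]
  calc ∑ κ ∈ B, B.card = ∑ κ ∈ B, (sN B κ + (B.filter fun κ' => κ.1 < κ'.1).card +
        (B.filter fun κ' => κ'.1 = κ.1).card) := Finset.sum_congr rfl h2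
    _ = ∑ κ ∈ B, sN B κ + ∑ κ ∈ B, sN B κ + ∑ κ ∈ B, (B.filter fun κ' => κ'.1 = κ.1).card := by
        rw [Finset.sum_add_distrib, Finset.sum_add_distrib, h3]
    _ ≤ ∑ κ ∈ B, sN B κ + ∑ κ ∈ B, sN B κ + ∑ _κ ∈ B, M := by
        have := Finset.sum_le_sum h4
        omega
    _ = 2 * (∑ κ ∈ B, sN B κ) + B.card * M := by
        rw [Finset.sum_const, smul_eq_mul]
        ring

theorem count_lt (B : Finset (Fin m × Fin M)) (n ρ q δ D : ℕ)
    (hs : q ≤ Bᶜ.card) (hn : ∀ κ ∈ B, sN B κ ≤ n) (hρn : ρ ≤ n)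
    (hδ : m * M ≤ ρ + δ) (hδq : δ ≤ q)
    (hD : D + 2 * q * δ + m * M + 2 * m * M ^ 2 < (m * M) ^ 2 + q ^ 2 + q) :
    D + ∑ κ : Fin m × Fin M, cost n ρ B κ < 2 * n * (m * M) := by
  classical
  have hcard : B.card + Bᶜ.card = m * M := by
    rw [Finset.card_add_card_compl, Fintype.card_prod, Fintype.card_fin, Fintype.card_fin]
  have hsum : ∑ κ : Fin m × Fin M, cost n ρ B κ + 2 * (∑ κ ∈ B, sN B κ) + 2 * ρ * Bᶜ.card =
      2 * n * (m * M) + 2 * M * Bᶜ.card := by
    have e1 : ∑ κ : Fin m × Fin M, cost n ρ B κ =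
        ∑ κ ∈ B, 2 * (n - sN B κ) + ∑ κ ∈ Bᶜ, (2 * M + 2 * (n - ρ)) := by
      rw [← Finset.sum_add_sum_compl B]
      congr 1
      · exact Finset.sum_congr rfl fun κ hκ => if_pos hκ
      · exact Finset.sum_congr rfl fun κ hκ => if_neg (Finset.mem_compl.mp hκ)
    have e2 : ∑ κ ∈ B, 2 * (n - sN B κ) + 2 * (∑ κ ∈ B, sN B κ) = B.card * (2 * n) := by
      rw [Finset.mul_sum, ← Finset.sum_add_distrib]
      rw [Finset.sum_congr rfl (fun κ hκ => show 2 * (n - sN B κ) + 2 * sN B κ = 2 * n by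
        have := hn κ hκ
        omega)]
      rw [Finset.sum_const, smul_eq_mul]
    have e3 : ∑ κ ∈ Bᶜ, (2 * M + 2 * (n - ρ)) + 2 * ρ * Bᶜ.card =
        Bᶜ.card * (2 * n) + 2 * M * Bᶜ.card := by
      rw [Finset.sum_const, smul_eq_mul]
      have : n = ρ + (n - ρ) := by omega
      generalize n - ρ = t at *
      subst this
      ring
    have e4 : 2 * n * (m * M) = B.card * (2 * n) + Bᶜ.card * (2 * n) := by
      rw [← hcard]
      ring
    rw [e1, e4]
    omega
  have hp := pairs_count B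
  generalize ∑ κ : Fin m × Fin M, cost n ρ B κ = C at *
  generalize ∑ κ ∈ B, sN B κ = σ at *
  generalize B.card = r at *
  generalize Bᶜ.card = s at *
  generalize hN : m * M = N at *
  have hmM : 2 * m * M ^ 2 = 2 * N * M := by
    rw [← hN]
    ring
  rw [hmM] at hD
  -- pass to integers
  zify at *
  have hr : (r : ℤ) = N - s := by linarith
  rw [hr] at hp
  have h1 : (0 : ℤ) ≤ s - q := by linarith
  have h2 : (0 : ℤ) ≤ s + q - 2 * δ := by linarith
  have h3 : (0 : ℤ) ≤ (s - q) * (s + q - 2 * δ) := mul_nonneg h1 h2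
  have h4 : (0 : ℤ) ≤ N - s := by linarith [Int.natCast_nonneg r]
  have h5 : (0 : ℤ) ≤ (N - s) * M := mul_nonneg h4 (Int.natCast_nonneg M)
  have h6 : (0 : ℤ) ≤ (ρ + δ - N) * s := mul_nonneg (by linarith) (Int.natCast_nonneg s)
  have h7 : (q : ℤ) ≤ N := by linarith
  nlinarith

theorem par_empty (d : ℕ) {E : Type} [NormedAddCommGroup E] : Par d (∅ : Set E) :=
  ⟨fun _ _ => 0, fun _ => ∅, fun _ x hx => absurd hx (Set.notMem_empty x), Set.empty_subset _⟩

/-- the set of bad parameters -/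
def BB (S : Set E) (P : E → Matrix I I ℂ) (w : Fin m → Fin M → I → ℂ)
    (Ψ : Fin m → E → (Z →L[ℂ] (I → ℂ))) (q : ℕ) (B : Finset (Fin m × Fin M)) :
    Set (Fin m → Fin M → Z) :=
  {z | q ≤ Bᶜ.card ∧ ∃ x, Bd S P w Ψ B (x, z)}

theorem sN_le {S : Set E} {P : E → Matrix I I ℂ} {w : Fin m → Fin M → I → ℂ}
    {Ψ : Fin m → E → (Z →L[ℂ] (I → ℂ))} {B : Finset (Fin m × Fin M)}
    (hpsd : ∀ x ∈ S, (P x).PosSemidef) (hsurj : ∀ x ∈ S, ∀ c, Function.Surjective (Ψ c x))
    {p : E × (Fin m → Fin M → Z)} (hb : Bd S P w Ψ B p) (κ : Fin m × Fin M) :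
    sN B κ ≤ Module.finrank ℂ Z := by
  classical
  let A' := {κ' // κ' ∈ B.filter fun κ' => κ'.1 < κ.1}
  have e := rank_mA (hpsd _ hb.mem) (fun κ' : A' => Wv w Ψ p κ')
    (hb.li.comp (fun κ' : A' => (⟨κ'.1, (Finset.mem_filter.mp κ'.2).1⟩ : B))
      (fun a b hab => Subtype.ext (congrArg (fun x : B => x.1) hab))) (Ψ κ.1 p.1)
    (hsurj _ hb.mem _)
  have h1 := LinearMap.finrank_range_le (mA (P p.1)
    (fun κ' : A' => Wv w Ψ p κ') (Ψ κ.1 p.1) : Z →ₗ[ℂ] (A' → ℂ))
  rw [e, Fintype.card_coe] at h1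
  exact h1

theorem rho_le {S : Set E} {P : E → Matrix I I ℂ} {Ψ : Fin m → E → (Z →L[ℂ] (I → ℂ))} {ρ : ℕ}
    (hρ : ∀ x ∈ S, ρ ≤ (P x).rank) (hsurj : ∀ x ∈ S, ∀ c, Function.Surjective (Ψ c x))
    {x : E} (hx : x ∈ S) (hm : 0 < m) : ρ ≤ Module.finrank ℂ Z := by
  refine (hρ x hx).trans ((P x).rank_le_card_width.trans ?_)
  have h1 := LinearMap.finrank_le_finrank_of_surjective
    (f := (Ψ ⟨0, hm⟩ x : Z →ₗ[ℂ] (I → ℂ))) (hsurj x hx ⟨0, hm⟩)
  rwa [Module.finrank_fintype_fun_eq_card] at h1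

theorem mM_pos (B : Finset (Fin m × Fin M)) {q δ D : ℕ} (hs : q ≤ Bᶜ.card)
    (hD : D + 2 * q * δ + m * M + 2 * m * M ^ 2 < (m * M) ^ 2 + q ^ 2 + q) : 0 < m := by
  rcases Nat.eq_zero_or_pos m with hm | hm
  · exfalso
    have hc : Bᶜ.card ≤ 0 := by
      refine (Finset.card_le_univ _).trans ?_
      rw [Fintype.card_prod, Fintype.card_fin, hm, Nat.zero_mul]
    have hq : q = 0 := by omega
    rw [hq, hm] at hD
    simp at hD
  · exact hm

theorem BB_par (hM : S_PAR_MONO) (hI : S_PAR_IMAGE) (hR : S_PAR_PROD) (hE : S_ELIM)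
    {S : Set E} {P : E → Matrix I I ℂ} {w : Fin m → Fin M → I → ℂ}
    {Ψ : Fin m → E → (Z →L[ℂ] (I → ℂ))} {ρ D q δ : ℕ}
    (hS : Par D S)
    (hP : ∀ i j, ContDiff ℝ 1 fun x => P x i j) (hΨ : ∀ c, ContDiff ℝ 1 (Ψ c))
    (hpsd : ∀ x ∈ S, (P x).PosSemidef)
    (hρ : ∀ x ∈ S, ρ ≤ (P x).rank) (hsurj : ∀ x ∈ S, ∀ c, Function.Surjective (Ψ c x))
    (hδ : m * M ≤ ρ + δ) (hδq : δ ≤ q)
    (hineq : D + 2 * q * δ + m * M + 2 * m * M ^ 2 < (m * M) ^ 2 + q ^ 2 + q)
    (B : Finset (Fin m × Fin M)) (hne : (BB S P w Ψ q B).Nonempty) :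
    0 < 2 * Module.finrank ℂ Z * (m * M) ∧
      Par (2 * Module.finrank ℂ Z * (m * M) - 1) (BB S P w Ψ q B) := by
  classical
  obtain ⟨z, hq, x, hb⟩ := hne
  have hm := mM_pos B hq hineq
  have hρn := rho_le hρ hsurj (x := x) hb.mem hm
  have hsn : ∀ κ ∈ B, sN B κ ≤ Module.finrank ℂ Z := fun κ _ => sN_le hpsd hsurj hb κ
  have hlt := count_lt B (Module.finrank ℂ Z) ρ q δ D hq hsn hρn hδ hδq hineq
  refine ⟨by omega, ?_⟩
  have h1 := par_stage hI hM hR hE (w := w) (B := B) hS hP hΨ hpsd hρ hsurj (m * M) le_rfl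
  have e1 : (Finset.univ.filter fun κ : Fin m × Fin M => ix κ < m * M) = Finset.univ :=
    Finset.filter_true_of_mem fun κ _ => ix_lt κ
  rw [e1] at h1
  have h2 : LocallyLipschitz fun p : E × (Fin m → Fin M → Z) => p.2 :=
    LipschitzWith.prod_snd.locallyLipschitz
  have h3 := hI _ _ _ (Tj S P w Ψ B (m * M)) (fun p : E × (Fin m → Fin M → Z) => p.2) h1
    h2.locallyLipschitzOn
  have h4 : BB S P w Ψ q B ⊆
      (fun p : E × (Fin m → Fin M → Z) => p.2) '' (Tj S P w Ψ B (m * M)) := by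
    rintro z' ⟨-, x', hb'⟩
    have e2 : tr (m * M) z' = z' := by
      funext c a
      show (if ix (c, a) < m * M then z' c a else 0) = z' c a
      rw [if_pos (ix_lt (c, a))]
    exact ⟨(x', tr (m * M) z'), ⟨(x', z'), hb', rfl⟩, e2⟩
  exact hM _ _ _ _ _ (by omega) h4 h3

open Classical in
theorem BB_cover {S : Set E} {P : E → Matrix I I ℂ} {w : Fin m → Fin M → I → ℂ}
    {Ψ : Fin m → E → (Z →L[ℂ] (I → ℂ))} {q : ℕ}
    (hpsd : ∀ x ∈ S, (P x).PosSemidef) (z : Fin m → Fin M → Z)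
    (hz : ∀ B, z ∉ BB S P w Ψ q B) (x : E) (hx : x ∈ S)
    (horth : ∀ c c', c ≠ c' → ∀ a b, herm (P x) (WW w Ψ z x c a) (WW w Ψ z x c' b) = 0) :
    (Finset.univ.filter fun c : Fin m => (gram (P x) (WW w Ψ z x c)).det = 0).card < q := by
  by_contra hcon
  set W : Fin m × Fin M → I → ℂ := fun κ => Wv w Ψ (x, z) κ with hW
  set B : Finset (Fin m × Fin M) := Finset.univ.filter fun κ => (P x).mulVec (W κ) ∉
    Submodule.span ℂ ((fun b => (P x).mulVec (W (κ.1, b))) '' {b | b < κ.2}) with hB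
  have horth' : ∀ κ κ' : Fin m × Fin M, κ.1 ≠ κ'.1 → herm (P x) (W κ) (W κ') = 0 :=
    fun κ κ' h => horth κ.1 κ'.1 h κ.2 κ'.2
  have hli := all_li (hpsd x hx) W B horth' fun κ hκ => (Finset.mem_filter.mp hκ).2
  apply hz B
  refine ⟨?_, x, ⟨hx, hli, horth', ?_⟩⟩
  · refine le_trans (not_lt.mp hcon) ?_
    have hsub : (Finset.univ.filter fun c : Fin m => (gram (P x) (WW w Ψ z x c)).det = 0) ⊆
        Bᶜ.image Prod.fst := by
      intro c hc
      rw [Finset.mem_filter] at hc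
      by_contra hnot
      have hall : ∀ a, (c, a) ∈ B := by
        intro a
        by_contra ha
        exact hnot (Finset.mem_image.mpr ⟨(c, a), Finset.mem_compl.mpr ha, rfl⟩)
      refine gram_det (hpsd x hx) (WW w Ψ z x c) ?_ hc.2
      exact hli.comp (fun a : Fin M => (⟨(c, a), hall a⟩ : B))
        (fun a b hab => congrArg (fun κ : B => κ.1.2) hab)
    exact (Finset.card_le_card hsub).trans Finset.card_image_le
  · intro κ hκ
    have h1 : (P x).mulVec (W κ) ∈
        Submodule.span ℂ ((fun b => (P x).mulVec (W (κ.1, b))) '' {b | b < κ.2}) := by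
      by_contra h
      exact hκ (Finset.mem_filter.mpr ⟨Finset.mem_univ _, h⟩)
    have e : {b | b < κ.2} = ((Finset.univ.filter fun b => b < κ.2 : Finset (Fin M)) :
        Set (Fin M)) := by
      ext b
      simp
    rw [e, Submodule.mem_span_image_finset_iff_exists_fun'] at h1
    obtain ⟨c, hc⟩ := h1
    refine ⟨c, ?_⟩
    rw [← hW] at *
    exact hc.symm

theorem gen (hM : S_PAR_MONO) (hU : S_PAR_UNION) (hI : S_PAR_IMAGE) (hR : S_PAR_PROD)
    (hDe : S_PAR_DENSE) (hE : S_ELIM) : S_GEN := by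
  classical
  intro m M q δ ρ D I E Z _ _ _ _ _ _ _ _ S P w Ψ hS hP hΨ hpsd hρ hsurj hδ hδq hineq
  have hfin : Module.finrank ℝ (Fin m → Fin M → Z) = 2 * Module.finrank ℂ Z * (m * M) := by
    rw [Module.finrank_pi_fintype]
    simp only [Module.finrank_pi_fintype, finrank_real_of_complex, Finset.sum_const,
      Finset.card_univ, Fintype.card_fin, smul_eq_mul]
    ring
  have hpar := BB_par (w := w) hM hI hR hE hS hP hΨ hpsd hρ hsurj hδ hδq hineq
  by_cases hemp : ∀ B, BB S P w Ψ q B = ∅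
  · have hz : ∀ z, ∀ B, z ∉ BB S P w Ψ q B := by
      intro z B
      rw [hemp B]
      exact Set.notMem_empty z
    exact dense_univ.mono fun z _ x hx ho => BB_cover hpsd z (hz z) x hx ho
  · rw [not_forall] at hemp
    obtain ⟨B0, hB0⟩ := hemp
    have hpos : 0 < 2 * Module.finrank ℂ Z * (m * M) :=
      (hpar B0 (Set.nonempty_iff_ne_empty.mpr hB0)).1
    have hall : ∀ B, Par (2 * Module.finrank ℂ Z * (m * M) - 1) (BB S P w Ψ q B) := by
      intro B
      rcases Set.eq_empty_or_nonempty (BB S P w Ψ q B) with h | h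
      · rw [h]
        exact par_empty _
      · exact (hpar B h).2
    obtain ⟨f, hf⟩ := exists_surjective_nat (Finset (Fin m × Fin M))
    have hun := hU _ _ (fun i => BB S P w Ψ q (f i)) fun i => hall (f i)
    have hlt : 2 * Module.finrank ℂ Z * (m * M) - 1 < Module.finrank ℝ (Fin m → Fin M → Z) := by
      rw [hfin]
      omega
    have hdense := hDe _ _ _ hun hlt
    refine hdense.mono fun z hz x hx ho => BB_cover hpsd z (fun B hB => ?_) x hx ho
    have hz' : z ∉ ⋃ i, BB S P w Ψ q (f i) := hz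
    obtain ⟨i, hi⟩ := hf B
    exact hz' (Set.mem_iUnion.mpr ⟨i, by rw [hi]; exact hB⟩)

end Pool.Agent.Y195.RK
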