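import Pool.Agent.Y269.RK.Stm

/-!
# Genericity theorem by a dimension count: linear algebra (task RK-GEN of Y269)
-/

set_option autoImplicit false

namespace Pool.Agent.Y195.RK

open Pool.Agent.Y269.RK
open scoped ComplexOrder

variable {I : Type} [Fintype I]

theorem herm_add_right (P : Matrix I I ℂ) (u v v' : I → ℂ) :
    herm P u (v + v') = herm P u v + herm P u v' := by
  unfold herm
  rw [Matrix.mulVec_add, dotProduct_add]

theorem herm_smul_right (P : Matrix I I ℂ) (u v : I → ℂ) (c : ℂ) :
    herm P u (c • v) = c * herm P u v := by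
  unfold herm
  rw [Matrix.mulVec_smul, dotProduct_smul, smul_eq_mul]

theorem herm_zero_right (P : Matrix I I ℂ) (u : I → ℂ) : herm P u 0 = 0 := by
  unfold herm
  rw [Matrix.mulVec_zero, dotProduct_zero]

theorem herm_sum_right (P : Matrix I I ℂ) (u : I → ℂ) {A : Type} (s : Finset A) (f : A → I → ℂ) :
    herm P u (∑ a ∈ s, f a) = ∑ a ∈ s, herm P u (f a) := by
  classical
  induction s using Finset.induction_on with
  | empty => simp [herm_zero_right]
  | insert a s ha ih => rw [Finset.sum_insert ha, Finset.sum_insert ha, herm_add_right, ih]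

theorem herm_add_left (P : Matrix I I ℂ) (u u' v : I → ℂ) :
    herm P (u + u') v = herm P u v + herm P u' v := by
  unfold herm
  rw [star_add, add_dotProduct]

theorem herm_smul_left (P : Matrix I I ℂ) (u v : I → ℂ) (c : ℂ) :
    herm P (c • u) v = star c * herm P u v := by
  unfold herm
  rw [star_smul, smul_dotProduct, smul_eq_mul]

theorem herm_zero_left (P : Matrix I I ℂ) (u : I → ℂ) : herm P 0 u = 0 := by
  unfold herm
  rw [star_zero, zero_dotProduct]

theorem herm_sum_left (P : Matrix I I ℂ) (u : I → ℂ) {A : Type} (s : Finset A) (f : A → I → ℂ) :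
    herm P (∑ a ∈ s, f a) u = ∑ a ∈ s, herm P (f a) u := by
  classical
  induction s using Finset.induction_on with
  | empty => simp [herm_zero_left]
  | insert a s ha ih => rw [Finset.sum_insert ha, Finset.sum_insert ha, herm_add_left, ih]

theorem herm_self_zero [DecidableEq I] {P : Matrix I I ℂ} (hP : P.PosSemidef) (u : I → ℂ)
    (h : herm P u u = 0) : P.mulVec u = 0 :=
  (hP.dotProduct_mulVec_zero_iff u).mp h

theorem gram_mulVec (P : Matrix I I ℂ) {A : Type} [Fintype A] (u : A → I → ℂ) (v : A → ℂ) (a : A) :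
    (gram P u).mulVec v a = herm P (u a) (∑ b, v b • u b) := by
  rw [herm_sum_right]
  show ∑ b, herm P (u a) (u b) * v b = _
  refine Finset.sum_congr rfl fun b _ => ?_
  rw [herm_smul_right, mul_comm]

theorem gram_inj [DecidableEq I] {P : Matrix I I ℂ} (hP : P.PosSemidef) {A : Type} [Fintype A]
    (u : A → I → ℂ) (hu : LinearIndependent ℂ fun a => P.mulVec (u a)) (v : A → ℂ)
    (hv : (gram P u).mulVec v = 0) : v = 0 := by
  have h1 : ∀ a, herm P (u a) (∑ b, v b • u b) = 0 := by
    intro a
    rw [← gram_mulVec, hv]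
    rfl
  have h2 : herm P (∑ b, v b • u b) (∑ b, v b • u b) = 0 := by
    rw [herm_sum_left]
    refine Finset.sum_eq_zero fun a _ => ?_
    rw [herm_smul_left, h1, mul_zero]
  have h3 := herm_self_zero hP _ h2
  rw [Matrix.mulVec_sum] at h3
  have h4 : ∑ b, v b • P.mulVec (u b) = 0 := by
    rw [← h3]
    refine Finset.sum_congr rfl fun b _ => ?_
    rw [Matrix.mulVec_smul]
  funext b
  exact Fintype.linearIndependent_iff.mp hu v h4 b

theorem gram_det [DecidableEq I] {P : Matrix I I ℂ} (hP : P.PosSemidef) {A : Type} [Fintype A]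
    [DecidableEq A] (u : A → I → ℂ) (hu : LinearIndependent ℂ fun a => P.mulVec (u a)) :
    (gram P u).det ≠ 0 := by
  intro h
  obtain ⟨v, hv, h0⟩ := Matrix.exists_mulVec_eq_zero_iff.mpr h
  exact hv (gram_inj hP u hu v h0)

theorem herm_surj [DecidableEq I] {P : Matrix I I ℂ} (hP : P.PosSemidef) {A : Type} [Fintype A]
    [DecidableEq A] (u : A → I → ℂ) (hu : LinearIndependent ℂ fun a => P.mulVec (u a))
    (t : A → ℂ) : ∃ x : I → ℂ, ∀ a, herm P (u a) x = t a := by
  have hinj : Function.Injective (gram P u).mulVec := by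
    intro x y hxy
    have : (gram P u).mulVec (x - y) = 0 := by
      rw [Matrix.mulVec_sub]
      exact sub_eq_zero.mpr hxy
    exact sub_eq_zero.mp (gram_inj hP u hu _ this)
  have hsurj : Function.Surjective (gram P u).mulVecLin :=
    LinearMap.surjective_of_injective (f := (gram P u).mulVecLin) hinj
  obtain ⟨v, hv⟩ := hsurj t
  refine ⟨∑ b, v b • u b, fun a => ?_⟩
  rw [← gram_mulVec]
  exact congrFun hv a

/-- greedy families are linearly independent -/
theorem greedy_li {V : Type} [AddCommGroup V] [Module ℂ V] {M : ℕ} (v : Fin M → V)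
    (B : Set (Fin M)) (hB : ∀ a ∈ B, v a ∉ Submodule.span ℂ (v '' {b | b < a}))
    (g : Fin M → ℂ) (hg0 : ∀ a ∉ B, g a = 0) (hg : ∑ a, g a • v a = 0) : g = 0 := by
  classical
  by_contra hne
  have hex : (Finset.univ.filter fun a => g a ≠ 0).Nonempty := by
    by_contra hcon
    apply hne
    funext a
    by_contra ha
    exact hcon ⟨a, Finset.mem_filter.mpr ⟨Finset.mem_univ _, ha⟩⟩
  obtain ⟨a, ha, hmax⟩ := Finset.exists_max_image _ (fun a : Fin M => a) hex
  have hga : g a ≠ 0 := (Finset.mem_filter.mp ha).2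
  have haB : a ∈ B := by
    by_contra h
    exact hga (hg0 a h)
  apply hB a haB
  have h1 : ∑ b ∈ Finset.univ.erase a, g b • v b + g a • v a = 0 := by
    rw [Finset.sum_erase_add _ _ (Finset.mem_univ a)]
    exact hg
  have h2 : v a = -((g a)⁻¹ • ∑ b ∈ Finset.univ.erase a, g b • v b) := by
    have : g a • v a = -∑ b ∈ Finset.univ.erase a, g b • v b := by
      rw [add_comm] at h1
      exact eq_neg_of_add_eq_zero_left h1
    have h3 : (g a)⁻¹ • (g a • v a) = (g a)⁻¹ • -∑ b ∈ Finset.univ.erase a, g b • v b := by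
      rw [this]
    rw [smul_smul, inv_mul_cancel₀ hga, one_smul] at h3
    rw [h3, smul_neg]
  rw [h2]
  refine Submodule.neg_mem _ (Submodule.smul_mem _ _ (Submodule.sum_mem _ fun b hb => ?_))
  by_cases hgb : g b = 0
  · rw [hgb, zero_smul]
    exact Submodule.zero_mem _
  · refine Submodule.smul_mem _ _ (Submodule.subset_span ⟨b, ?_, rfl⟩)
    have := hmax b (Finset.mem_filter.mpr ⟨Finset.mem_univ _, hgb⟩)
    exact lt_of_le_of_ne this (Finset.ne_of_mem_erase hb)

/-- the greedy basis of all vectors is linearly independent when different labels are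
orthogonal -/
theorem all_li [DecidableEq I] {m M : ℕ} {P : Matrix I I ℂ} (hP : P.PosSemidef)
    (W : Fin m × Fin M → I → ℂ) (B : Finset (Fin m × Fin M))
    (horth : ∀ κ κ' : Fin m × Fin M, κ.1 ≠ κ'.1 → herm P (W κ) (W κ') = 0)
    (hB : ∀ κ ∈ B, P.mulVec (W κ) ∉
      Submodule.span ℂ ((fun b => P.mulVec (W (κ.1, b))) '' {b | b < κ.2})) :
    LinearIndependent ℂ fun κ : B => P.mulVec (W κ) := by
  classical
  rw [Fintype.linearIndependent_iff]
  intro g hg
  set G : Fin m × Fin M → ℂ := fun κ => if h : κ ∈ B then g ⟨κ, h⟩ else 0 with hG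
  have hGB : ∀ κ : B, G κ = g κ := by
    intro κ
    simp [hG]
  have hG0 : ∀ κ, κ ∉ B → G κ = 0 := by
    intro κ h
    simp [hG, h]
  -- the vectors of the labels
  set U : Fin m → I → ℂ := fun c => ∑ a, G (c, a) • W (c, a) with hU
  have hsum : P.mulVec (∑ c, U c) = 0 := by
    have e1 : ∑ c, U c = ∑ κ : Fin m × Fin M, G κ • W κ := by
      rw [Fintype.sum_prod_type]
    rw [e1, Matrix.mulVec_sum]
    have e2 : ∑ κ : Fin m × Fin M, P.mulVec (G κ • W κ) = ∑ κ ∈ B, G κ • P.mulVec (W κ) := by
      rw [← Finset.sum_subset (Finset.subset_univ B)]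
      · refine Finset.sum_congr rfl fun κ _ => ?_
        rw [Matrix.mulVec_smul]
      · intro κ _ h
        rw [hG0 κ h, zero_smul, Matrix.mulVec_zero]
    rw [e2, ← Finset.sum_coe_sort B, ← hg]
    refine Finset.sum_congr rfl fun κ _ => ?_
    rw [hGB]
  have hUc : ∀ c, P.mulVec (U c) = 0 := by
    intro c
    apply herm_self_zero hP
    have h1 : herm P (U c) (∑ c', U c') = 0 := by
      unfold herm
      rw [hsum, dotProduct_zero]
    rw [herm_sum_right, Finset.sum_eq_single c] at h1
    · exact h1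
    · intro c' _ hc'
      rw [hU]
      simp only
      rw [herm_sum_left]
      refine Finset.sum_eq_zero fun a _ => ?_
      rw [herm_sum_right]
      refine Finset.sum_eq_zero fun b _ => ?_
      rw [herm_smul_left, herm_smul_right, horth _ _ (Ne.symm hc'), mul_zero, mul_zero]
    · intro h
      exact absurd (Finset.mem_univ _) h
  have hfin : ∀ c a, G (c, a) = 0 := by
    intro c
    have h1 := greedy_li (fun a => P.mulVec (W (c, a))) {a | (c, a) ∈ B} (fun a ha => hB (c, a) ha)
      (fun a => G (c, a)) (fun a ha => hG0 _ ha) (by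
        rw [← hUc c, hU]
        simp only
        rw [Matrix.mulVec_sum]
        refine Finset.sum_congr rfl fun a _ => ?_
        rw [Matrix.mulVec_smul])
    intro a
    exact congrFun h1 a
  intro κ
  rw [← hGB κ]
  exact hfin κ.1.1 κ.1.2

end Pool.Agent.Y195.RK
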