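import Pool.Agent.Y195.RK.Alg

/-!
# Genericity theorem by a dimension count: smoothness of the coefficients
-/

set_option autoImplicit false

namespace Pool.Agent.Y195.RK

open Pool.Agent.Y269.RK
open scoped ComplexOrder

variable {G Z F : Type} [NormedAddCommGroup G] [NormedSpace ℝ G]
  [NormedAddCommGroup Z] [NormedSpace ℂ Z] [NormedAddCommGroup F] [NormedSpace ℂ F]

/-- evaluation is a bounded real bilinear map -/
theorem ev_bilin : IsBoundedBilinearMap ℝ fun p : (Z →L[ℂ] F) × Z => p.1 p.2 := by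
  have h : IsBoundedBilinearMap ℂ fun p : (Z →L[ℂ] F) × Z => p.1 p.2 := isBoundedBilinearMap_apply
  refine ⟨h.add_left, fun c x y => rfl, h.add_right, fun c x y => ?_, h.bound⟩
  show x (c • y) = c • x y
  rw [← Complex.coe_smul, map_smul, Complex.coe_smul]

theorem cd_eval {A : G → (Z →L[ℂ] F)} {z : G → Z} (hA : ContDiff ℝ 1 A) (hz : ContDiff ℝ 1 z) :
    ContDiff ℝ 1 fun x => A x (z x) := by
  have h : ContDiff ℝ 1 fun p : (Z →L[ℂ] F) × Z => p.1 p.2 := ev_bilin.contDiff
  exact h.comp (hA.prodMk hz)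

/-- a family of linear maps is smooth if all evaluations are -/
theorem cd_clm [FiniteDimensional ℂ Z] {A : G → (Z →L[ℂ] F)}
    (hA : ∀ y, ContDiff ℝ 1 fun x => A x y) : ContDiff ℝ 1 A := by
  classical
  let b := Module.finBasis ℂ Z
  let Φ : (Fin (Module.finrank ℂ Z) → F) →ₗ[ℝ] (Z →L[ℂ] F) :=
    { toFun := fun h => ∑ i, (LinearMap.toContinuousLinearMap (b.coord i)).smulRight (h i)
      map_add' := by
        intro x y
        rw [← Finset.sum_add_distrib]
        refine Finset.sum_congr rfl fun i _ => ?_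
        ext z
        simp
      map_smul' := by
        intro c x
        rw [RingHom.id_apply, Finset.smul_sum]
        refine Finset.sum_congr rfl fun i _ => ?_
        ext z
        show b.coord i z • (c • x i) = c • (b.coord i z • x i)
        rw [smul_comm] }
  have hΦ : ContDiff ℝ 1 Φ := by
    have hb : ∀ h : Fin (Module.finrank ℂ Z) → F,
        ‖Φ h‖ ≤ (∑ i, ‖LinearMap.toContinuousLinearMap (b.coord i)‖) * ‖h‖ := by
      intro h
      have e0 : Φ h = ∑ i, (LinearMap.toContinuousLinearMap (b.coord i)).smulRight (h i) := rfl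
      rw [e0]
      calc ‖∑ i, (LinearMap.toContinuousLinearMap (b.coord i)).smulRight (h i)‖ 
          ≤ ∑ i, ‖(LinearMap.toContinuousLinearMap (b.coord i)).smulRight (h i)‖ :=
            norm_sum_le _ _
        _ ≤ ∑ i, ‖LinearMap.toContinuousLinearMap (b.coord i)‖ * ‖h‖ := by
            refine Finset.sum_le_sum fun i _ => ?_
            rw [ContinuousLinearMap.norm_smulRight_apply]
            exact mul_le_mul_of_nonneg_left (norm_le_pi_norm h i) (norm_nonneg _)
        _ = _ := by rw [Finset.sum_mul]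
    exact (LinearMap.mkContinuous Φ _ hb).contDiff
  have e : A = fun x => Φ fun i => A x (b i) := by
    funext x
    ext z
    show A x z = (∑ i, (LinearMap.toContinuousLinearMap (b.coord i)).smulRight (A x (b i))) z
    rw [sum_apply]
    conv_lhs => rw [← b.sum_repr z]
    rw [map_sum]
    refine Finset.sum_congr rfl fun i _ => ?_
    rw [map_smul]
    rfl
  rw [e]
  exact hΦ.comp (contDiff_pi.mpr fun i => hA (b i))

theorem cd_star {f : G → ℂ} (hf : ContDiff ℝ 1 f) : ContDiff ℝ 1 fun x => star (f x) :=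
  Complex.conjCLE.contDiff.comp hf

variable {I : Type} [Fintype I]

theorem cd_mulVec {P : G → Matrix I I ℂ} {u : G → I → ℂ} (hP : ∀ i j, ContDiff ℝ 1 fun x => P x i j)
    (hu : ContDiff ℝ 1 u) : ContDiff ℝ 1 fun x => (P x).mulVec (u x) := by
  rw [contDiff_pi] at hu ⊢
  intro i
  show ContDiff ℝ 1 fun x => ∑ j, P x i j * u x j
  exact ContDiff.sum fun j _ => (hP i j).mul (hu j)

theorem cd_herm {P : G → Matrix I I ℂ} {u v : G → I → ℂ}
    (hP : ∀ i j, ContDiff ℝ 1 fun x => P x i j)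
    (hu : ContDiff ℝ 1 u) (hv : ContDiff ℝ 1 v) : ContDiff ℝ 1 fun x => herm (P x) (u x) (v x) := by
  have h := cd_mulVec hP hv
  rw [contDiff_pi] at h hu
  show ContDiff ℝ 1 fun x => ∑ j, star (u x j) * (P x).mulVec (v x) j
  exact ContDiff.sum fun j _ => (cd_star (hu j)).mul (h j)

/-- the linear map `ζ ↦ (herm P (u a) (ψ ζ))` -/
noncomputable def mA {A : Type} [Fintype A] (P : Matrix I I ℂ) (u : A → I → ℂ)
    (ψ : Z →L[ℂ] (I → ℂ)) : Z →L[ℂ] (A → ℂ) :=
  ContinuousLinearMap.comp (LinearMap.toContinuousLinearMap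
    { toFun := fun v a => herm P (u a) v
      map_add' := fun v v' => by funext a; exact herm_add_right P _ _ _
      map_smul' := fun c v => by funext a; exact herm_smul_right P _ _ c }) ψ

theorem mA_apply {A : Type} [Fintype A] (P : Matrix I I ℂ) (u : A → I → ℂ)
    (ψ : Z →L[ℂ] (I → ℂ)) (ζ : Z) (a : A) : mA P u ψ ζ a = herm P (u a) (ψ ζ) := rfl

/-- the linear map `ζ ↦ P (ψ ζ)` -/
noncomputable def mP (P : Matrix I I ℂ) (ψ : Z →L[ℂ] (I → ℂ)) : Z →L[ℂ] (I → ℂ) :=
  ContinuousLinearMap.comp (LinearMap.toContinuousLinearMap P.mulVecLin) ψ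

theorem mP_apply (P : Matrix I I ℂ) (ψ : Z →L[ℂ] (I → ℂ)) (ζ : Z) :
    mP P ψ ζ = P.mulVec (ψ ζ) := rfl

theorem rank_mA [DecidableEq I] [FiniteDimensional ℂ Z] {A : Type} [Fintype A]
    [DecidableEq A] {P : Matrix I I ℂ} (hP : P.PosSemidef) (u : A → I → ℂ)
    (hu : LinearIndependent ℂ fun a => P.mulVec (u a)) (ψ : Z →L[ℂ] (I → ℂ))
    (hψ : Function.Surjective ψ) :
    Module.finrank ℂ (LinearMap.range (mA P u ψ : Z →ₗ[ℂ] (A → ℂ))) = Fintype.card A := by
  have : LinearMap.range (mA P u ψ : Z →ₗ[ℂ] (A → ℂ)) = ⊤ := by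
    rw [LinearMap.range_eq_top]
    intro t
    obtain ⟨x, hx⟩ := herm_surj hP u hu t
    obtain ⟨ζ, hζ⟩ := hψ x
    refine ⟨ζ, ?_⟩
    funext a
    show herm P (u a) (ψ ζ) = t a
    rw [hζ, hx]
  rw [this, finrank_top, Module.finrank_fintype_fun_eq_card]

theorem rank_mP [FiniteDimensional ℂ Z] {P : Matrix I I ℂ} (ψ : Z →L[ℂ] (I → ℂ))
    (hψ : Function.Surjective ψ) :
    Module.finrank ℂ (LinearMap.range (mP P ψ : Z →ₗ[ℂ] (I → ℂ))) = P.rank := by
  have : LinearMap.range (mP P ψ : Z →ₗ[ℂ] (I → ℂ)) = LinearMap.range P.mulVecLin := by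
    apply le_antisymm
    · rintro x ⟨ζ, rfl⟩
      exact ⟨ψ ζ, rfl⟩
    · rintro x ⟨y, rfl⟩
      obtain ⟨ζ, rfl⟩ := hψ y
      exact ⟨ζ, rfl⟩
  rw [this]
  rfl

end Pool.Agent.Y195.RK
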