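import Pool.Agent.Y195.RK.Smooth

/-!
# Genericity theorem by a dimension count: elimination of the vectors one by one
-/

set_option autoImplicit false
set_option linter.unusedSectionVars false

namespace Pool.Agent.Y195.RK

open Pool.Agent.Y269.RK
open scoped ComplexOrder

/-! ### positions -/

section ix

variable {m M : ℕ}

/-- position of a pair in the lexicographic order -/
def ix (κ : Fin m × Fin M) : ℕ := (finProdFinEquiv κ : Fin (m * M))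

theorem ix_val (κ : Fin m × Fin M) : ix κ = κ.2 + M * κ.1 := rfl

theorem ix_lt (κ : Fin m × Fin M) : ix κ < m * M := (finProdFinEquiv κ).2

theorem ix_inj {κ κ' : Fin m × Fin M} (h : ix κ = ix κ') : κ = κ' :=
  finProdFinEquiv.injective (Fin.ext h)

theorem ix_surj (j : ℕ) (h : j < m * M) : ∃ κ : Fin m × Fin M, ix κ = j :=
  ⟨finProdFinEquiv.symm ⟨j, h⟩, by unfold ix; rw [Equiv.apply_symm_apply]⟩

theorem ix_label {κ κ' : Fin m × Fin M} (h : κ'.1 < κ.1) : ix κ' < ix κ := by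
  rw [ix_val, ix_val]
  have h1 : (κ'.1 : ℕ) + 1 ≤ κ.1 := h
  have h2 : M * ((κ'.1 : ℕ) + 1) ≤ M * κ.1 := Nat.mul_le_mul_left _ h1
  have h3 := κ'.2.2
  rw [Nat.mul_add] at h2
  omega

theorem ix_idx {κ : Fin m × Fin M} {b : Fin M} (h : b < κ.2) : ix (κ.1, b) < ix κ := by
  rw [ix_val, ix_val]
  have : (b : ℕ) < κ.2 := h
  show (b : ℕ) + M * κ.1 < κ.2 + M * κ.1
  omega

end ix

variable {m M : ℕ} {I E Z : Type} [Fintype I] [DecidableEq I]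
  [NormedAddCommGroup E] [NormedSpace ℝ E] [FiniteDimensional ℝ E]
  [NormedAddCommGroup Z] [NormedSpace ℂ Z] [FiniteDimensional ℂ Z]

/-- the vectors -/
noncomputable def Wv (w : Fin m → Fin M → I → ℂ) (Ψ : Fin m → E → (Z →L[ℂ] (I → ℂ)))
    (p : E × (Fin m → Fin M → Z)) (κ : Fin m × Fin M) : I → ℂ := WW w Ψ p.2 p.1 κ.1 κ.2

/-- bad points with the greedy basis `B` -/
structure Bd (S : Set E) (P : E → Matrix I I ℂ) (w : Fin m → Fin M → I → ℂ)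
    (Ψ : Fin m → E → (Z →L[ℂ] (I → ℂ))) (B : Finset (Fin m × Fin M))
    (p : E × (Fin m → Fin M → Z)) : Prop where
  mem : p.1 ∈ S
  li : LinearIndependent ℂ fun κ : B => (P p.1).mulVec (Wv w Ψ p κ)
  orth : ∀ κ κ' : Fin m × Fin M, κ.1 ≠ κ'.1 → herm (P p.1) (Wv w Ψ p κ) (Wv w Ψ p κ') = 0
  dep : ∀ κ ∉ B, ∃ c : Fin M → ℂ, (P p.1).mulVec (Wv w Ψ p κ) =
    ∑ b ∈ Finset.univ.filter (fun b => b < κ.2), c b • (P p.1).mulVec (Wv w Ψ p (κ.1, b))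

/-- truncation -/
def tr (j : ℕ) (z : Fin m → Fin M → Z) : Fin m → Fin M → Z :=
  fun c a => if ix (c, a) < j then z c a else 0

theorem Wv_tr (w : Fin m → Fin M → I → ℂ) (Ψ : Fin m → E → (Z →L[ℂ] (I → ℂ)))
    (p : E × (Fin m → Fin M → Z)) (κ : Fin m × Fin M) (j : ℕ) (h : ix κ < j) :
    Wv w Ψ (p.1, tr j p.2) κ = Wv w Ψ p κ := by
  have e : tr j p.2 κ.1 κ.2 = p.2 κ.1 κ.2 := if_pos h
  show w κ.1 κ.2 + Ψ κ.1 p.1 (tr j p.2 κ.1 κ.2) = w κ.1 κ.2 + Ψ κ.1 p.1 (p.2 κ.1 κ.2)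
  rw [e]

/-- adding one coordinate -/
noncomputable def gl (κ : Fin m × Fin M) :
    ((E × (Fin m → Fin M → Z)) × Z) →ₗ[ℝ] (E × (Fin m → Fin M → Z)) where
  toFun q := (q.1.1, q.1.2 + Pi.single κ.1 (Pi.single κ.2 q.2))
  map_add' q q' := by
    refine Prod.ext rfl ?_
    show q.1.2 + q'.1.2 + Pi.single κ.1 (Pi.single κ.2 (q.2 + q'.2)) =
      q.1.2 + Pi.single κ.1 (Pi.single κ.2 q.2) + (q'.1.2 + Pi.single κ.1 (Pi.single κ.2 q'.2))
    rw [Pi.single_add, Pi.single_add]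
    abel
  map_smul' c q := by
    refine Prod.ext rfl ?_
    show c • q.1.2 + Pi.single κ.1 (Pi.single κ.2 (c • q.2)) =
      c • (q.1.2 + Pi.single κ.1 (Pi.single κ.2 q.2))
    rw [Pi.single_smul, Pi.single_smul, smul_add]

theorem gl_lip (κ : Fin m × Fin M) : LocallyLipschitz (gl (E := E) (Z := Z) κ) :=
  (LinearMap.toContinuousLinearMap (gl (E := E) (Z := Z) κ)).lipschitz.locallyLipschitz

theorem tr_succ (κ : Fin m × Fin M) (z : Fin m → Fin M → Z) :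
    tr (ix κ + 1) z = tr (ix κ) z + Pi.single κ.1 (Pi.single κ.2 (z κ.1 κ.2)) := by
  funext c a
  show (if ix (c, a) < ix κ + 1 then z c a else 0) = (if ix (c, a) < ix κ then z c a else 0) +
    (Pi.single κ.1 (Pi.single κ.2 (z κ.1 κ.2)) : Fin m → Fin M → Z) c a
  rcases lt_trichotomy (ix (c, a)) (ix κ) with h | h | h
  · have hne : ¬ (c = κ.1 ∧ a = κ.2) := by
      rintro ⟨rfl, rfl⟩
      exact lt_irrefl _ h
    rw [if_pos (by omega), if_pos h]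
    have : (Pi.single κ.1 (Pi.single κ.2 (z κ.1 κ.2)) : Fin m → Fin M → Z) c a = 0 := by
      by_cases hc : c = κ.1
      · subst hc
        rw [Pi.single_eq_same]
        exact Pi.single_eq_of_ne (fun h => hne ⟨rfl, h⟩) _
      · rw [Pi.single_eq_of_ne hc]
        rfl
    rw [this, add_zero]
  · have hk := ix_inj h
    have h1 : c = κ.1 := congrArg Prod.fst hk
    have h2 : a = κ.2 := congrArg Prod.snd hk
    subst h1 h2
    rw [if_pos (by omega), if_neg (by omega), Pi.single_eq_same, Pi.single_eq_same, zero_add]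
  · have hne : ¬ (c = κ.1 ∧ a = κ.2) := by
      rintro ⟨rfl, rfl⟩
      exact lt_irrefl _ h
    rw [if_neg (by omega), if_neg (by omega)]
    have : (Pi.single κ.1 (Pi.single κ.2 (z κ.1 κ.2)) : Fin m → Fin M → Z) c a = 0 := by
      by_cases hc : c = κ.1
      · subst hc
        rw [Pi.single_eq_same]
        exact Pi.single_eq_of_ne (fun h => hne ⟨rfl, h⟩) _
      · rw [Pi.single_eq_of_ne hc]
        rfl
    rw [this, add_zero]

theorem cd_Wv {w : Fin m → Fin M → I → ℂ} {Ψ : Fin m → E → (Z →L[ℂ] (I → ℂ))}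
    (hΨ : ∀ c, ContDiff ℝ 1 (Ψ c)) (κ : Fin m × Fin M) :
    ContDiff ℝ 1 fun p : E × (Fin m → Fin M → Z) => Wv w Ψ p κ := by
  unfold Wv WW
  refine contDiff_const.add (cd_eval ((hΨ κ.1).comp contDiff_fst) ?_)
  have h : ContDiff ℝ 1 fun p : E × (Fin m → Fin M → Z) => p.2 := contDiff_snd
  exact contDiff_pi.mp (contDiff_pi.mp h κ.1) κ.2

/-- the stages -/
def Tj (S : Set E) (P : E → Matrix I I ℂ) (w : Fin m → Fin M → I → ℂ)
    (Ψ : Fin m → E → (Z →L[ℂ] (I → ℂ))) (B : Finset (Fin m × Fin M)) (j : ℕ) :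
    Set (E × (Fin m → Fin M → Z)) := (fun p => (p.1, tr j p.2)) '' {p | Bd S P w Ψ B p}

/-- the number of conditions on a vector of the basis -/
def sN (B : Finset (Fin m × Fin M)) (κ : Fin m × Fin M) : ℕ :=
  (B.filter fun κ' => κ'.1 < κ.1).card

theorem step_in (hI : S_PAR_IMAGE) (hM : S_PAR_MONO) (hE : S_ELIM)
    {S : Set E} {P : E → Matrix I I ℂ} {w : Fin m → Fin M → I → ℂ}
    {Ψ : Fin m → E → (Z →L[ℂ] (I → ℂ))} {B : Finset (Fin m × Fin M)}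
    (hP : ∀ i j, ContDiff ℝ 1 fun x => P x i j) (hΨ : ∀ c, ContDiff ℝ 1 (Ψ c))
    (hpsd : ∀ x ∈ S, (P x).PosSemidef) (hsurj : ∀ x ∈ S, ∀ c, Function.Surjective (Ψ c x))
    (κ : Fin m × Fin M) (d : ℕ) (h : Par d (Tj S P w Ψ B (ix κ))) :
    Par (d + 2 * (Module.finrank ℂ Z - sN B κ)) (Tj S P w Ψ B (ix κ + 1)) := by
  classical
  let A' := {κ' // κ' ∈ B.filter fun κ' => κ'.1 < κ.1}
  let A : E × (Fin m → Fin M → Z) → (Z →L[ℂ] (A' → ℂ)) := fun p =>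
    mA (P p.1) (fun κ' : A' => Wv w Ψ p κ') (Ψ κ.1 p.1)
  let v : E × (Fin m → Fin M → Z) → (A' → ℂ) := fun p κ' =>
    -herm (P p.1) (Wv w Ψ p κ') (w κ.1 κ.2)
  have hPf : ∀ i j, ContDiff ℝ 1 fun p : E × (Fin m → Fin M → Z) => P p.1 i j :=
    fun i j => (hP i j).comp contDiff_fst
  have hA : ContDiff ℝ 1 A := by
    refine cd_clm fun y => ?_
    rw [contDiff_pi]
    intro κ'
    exact cd_herm hPf (cd_Wv hΨ _) (cd_eval ((hΨ κ.1).comp contDiff_fst) contDiff_const)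
  have hv : ContDiff ℝ 1 v := by
    rw [contDiff_pi]
    intro κ'
    exact (cd_herm hPf (cd_Wv hΨ _) contDiff_const).neg
  have hr : ∀ p ∈ Tj S P w Ψ B (ix κ), sN B κ ≤
      Module.finrank ℂ (LinearMap.range (A p : Z →ₗ[ℂ] (A' → ℂ))) := by
    rintro p ⟨p, hp, rfl⟩
    have e := rank_mA (hpsd _ hp.mem) (fun κ' : A' => Wv w Ψ (p.1, tr (ix κ) p.2) κ') (by
      have e1 : (fun κ' : A' => (P p.1).mulVec (Wv w Ψ (p.1, tr (ix κ) p.2) κ')) =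
          fun κ' : A' => (P p.1).mulVec (Wv w Ψ p κ') := by
        funext κ'
        rw [Wv_tr _ _ _ _ _ (ix_label (Finset.mem_filter.mp κ'.2).2)]
      rw [e1]
      exact hp.li.comp (fun κ' : A' => (⟨κ'.1, (Finset.mem_filter.mp κ'.2).1⟩ : B))
        (fun a b hab => Subtype.ext (congrArg (fun x : B => x.1) hab))) (Ψ κ.1 p.1)
      (hsurj _ hp.mem _)
    show sN B κ ≤ Module.finrank ℂ (LinearMap.range (mA (P p.1)
      (fun κ' : A' => Wv w Ψ (p.1, tr (ix κ) p.2) κ') (Ψ κ.1 p.1) : Z →ₗ[ℂ] (A' → ℂ)))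
    rw [e, Fintype.card_coe]
    rfl
  have h1 := hE d (sN B κ) _ Z (A' → ℂ) _ A v h hA hv hr
  refine hM _ _ _ _ _ le_rfl ?_ (hI _ _ _ _ (gl κ) h1 (gl_lip κ).locallyLipschitzOn)
  rintro q ⟨p, hp, rfl⟩
  refine ⟨((p.1, tr (ix κ) p.2), p.2 κ.1 κ.2), ⟨⟨p, hp, rfl⟩, ?_⟩, ?_⟩
  · funext κ'
    show herm (P p.1) (Wv w Ψ (p.1, tr (ix κ) p.2) κ') (Ψ κ.1 p.1 (p.2 κ.1 κ.2)) =
      -herm (P p.1) (Wv w Ψ (p.1, tr (ix κ) p.2) κ') (w κ.1 κ.2)
    have hlt := (Finset.mem_filter.mp κ'.2).2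
    rw [Wv_tr _ _ _ _ _ (ix_label hlt)]
    have h3 := hp.orth κ' κ (ne_of_lt hlt)
    have e2 : Wv w Ψ p κ = w κ.1 κ.2 + Ψ κ.1 p.1 (p.2 κ.1 κ.2) := rfl
    rw [e2, herm_add_right, add_comm] at h3
    exact eq_neg_of_add_eq_zero_left h3
  · show (p.1, tr (ix κ) p.2 + Pi.single κ.1 (Pi.single κ.2 (p.2 κ.1 κ.2))) =
      (p.1, tr (ix κ + 1) p.2)
    rw [tr_succ]

theorem step_out (hI : S_PAR_IMAGE) (hM : S_PAR_MONO) (hR : S_PAR_PROD) (hE : S_ELIM)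
    {S : Set E} {P : E → Matrix I I ℂ} {w : Fin m → Fin M → I → ℂ}
    {Ψ : Fin m → E → (Z →L[ℂ] (I → ℂ))} {B : Finset (Fin m × Fin M)} {ρ : ℕ}
    (hP : ∀ i j, ContDiff ℝ 1 fun x => P x i j) (hΨ : ∀ c, ContDiff ℝ 1 (Ψ c))
    (hρ : ∀ x ∈ S, ρ ≤ (P x).rank) (hsurj : ∀ x ∈ S, ∀ c, Function.Surjective (Ψ c x))
    (κ : Fin m × Fin M) (hκ : κ ∉ B) (d : ℕ) (h : Par d (Tj S P w Ψ B (ix κ))) :
    Par (d + (2 * M + 2 * (Module.finrank ℂ Z - ρ))) (Tj S P w Ψ B (ix κ + 1)) := by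
  classical
  let G2 := (E × (Fin m → Fin M → Z)) × (Fin M → ℂ)
  let A : G2 → (Z →L[ℂ] (I → ℂ)) := fun r => mP (P r.1.1) (Ψ κ.1 r.1.1)
  let v : G2 → (I → ℂ) := fun r =>
    ∑ b ∈ Finset.univ.filter (fun b => b < κ.2), r.2 b • (P r.1.1).mulVec (Wv w Ψ r.1 (κ.1, b)) -
      (P r.1.1).mulVec (w κ.1 κ.2)
  have hf1 : ContDiff ℝ 1 fun r : G2 => r.1 := contDiff_fst
  have hf : ContDiff ℝ 1 fun r : G2 => r.1.1 := contDiff_fst.comp contDiff_fst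
  have hPf : ∀ i j, ContDiff ℝ 1 fun r : G2 => P r.1.1 i j := fun i j => (hP i j).comp hf
  have hA : ContDiff ℝ 1 A := by
    refine cd_clm fun y => ?_
    exact cd_mulVec hPf (cd_eval ((hΨ κ.1).comp hf) contDiff_const)
  have hv : ContDiff ℝ 1 v := by
    refine ContDiff.sub (ContDiff.sum fun b _ => ?_) (cd_mulVec hPf contDiff_const)
    have h2 : ContDiff ℝ 1 fun r : G2 => r.2 b := by
      have : ContDiff ℝ 1 fun r : G2 => r.2 := contDiff_snd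
      exact contDiff_pi.mp this b
    exact h2.smul (cd_mulVec hPf ((cd_Wv hΨ _).comp hf1))
  have h0 := hR d _ (Fin M → ℂ) _ h
  have hfin : Module.finrank ℝ (Fin M → ℂ) = 2 * M := by
    rw [finrank_real_of_complex, Module.finrank_fin_fun]
  rw [hfin] at h0
  have hr : ∀ r ∈ Tj S P w Ψ B (ix κ) ×ˢ (Set.univ : Set (Fin M → ℂ)), ρ ≤
      Module.finrank ℂ (LinearMap.range (A r : Z →ₗ[ℂ] (I → ℂ))) := by
    rintro ⟨r, c⟩ ⟨hr, -⟩
    obtain ⟨p, hp, rfl⟩ := hr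
    show ρ ≤ Module.finrank ℂ (LinearMap.range (mP (P p.1) (Ψ κ.1 p.1) : Z →ₗ[ℂ] (I → ℂ)))
    rw [rank_mP _ (hsurj _ hp.mem _)]
    exact hρ _ hp.mem
  have h1 := hE _ ρ _ Z (I → ℂ) _ A v h0 hA hv hr
  have hg : LocallyLipschitz fun q : G2 × Z => gl (E := E) (Z := Z) κ (q.1.1, q.2) := by
    refine (gl_lip κ).comp ?_
    have h5 : LipschitzWith 1 fun q : G2 × Z => (q.1.1, q.2) := by
      have := (LipschitzWith.prod_fst.comp (LipschitzWith.prod_fst (α := G2) (β := Z))).prodMk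
        (LipschitzWith.prod_snd (α := G2) (β := Z))
      simpa using this
    exact h5.locallyLipschitz
  have e : d + (2 * M + 2 * (Module.finrank ℂ Z - ρ)) =
      d + 2 * M + 2 * (Module.finrank ℂ Z - ρ) := by ring
  rw [e]
  refine hM _ _ _ _ _ le_rfl ?_ (hI _ _ _ _ _ h1 hg.locallyLipschitzOn)
  rintro q ⟨p, hp, rfl⟩
  obtain ⟨c, hc⟩ := hp.dep κ hκ
  refine ⟨(((p.1, tr (ix κ) p.2), c), p.2 κ.1 κ.2), ⟨⟨⟨p, hp, rfl⟩, Set.mem_univ _⟩, ?_⟩, ?_⟩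
  · show (P p.1).mulVec (Ψ κ.1 p.1 (p.2 κ.1 κ.2)) =
      ∑ b ∈ Finset.univ.filter (fun b => b < κ.2),
        c b • (P p.1).mulVec (Wv w Ψ (p.1, tr (ix κ) p.2) (κ.1, b)) -
      (P p.1).mulVec (w κ.1 κ.2)
    have e1 : ∑ b ∈ Finset.univ.filter (fun b => b < κ.2),
        c b • (P p.1).mulVec (Wv w Ψ (p.1, tr (ix κ) p.2) (κ.1, b)) =
        ∑ b ∈ Finset.univ.filter (fun b => b < κ.2),
        c b • (P p.1).mulVec (Wv w Ψ p (κ.1, b)) := by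
      refine Finset.sum_congr rfl fun b hb => ?_
      rw [Wv_tr _ _ _ _ _ (ix_idx (Finset.mem_filter.mp hb).2)]
    rw [e1, ← hc]
    have e2 : Wv w Ψ p κ = w κ.1 κ.2 + Ψ κ.1 p.1 (p.2 κ.1 κ.2) := rfl
    rw [e2, Matrix.mulVec_add, add_sub_cancel_left]
  · show (p.1, tr (ix κ) p.2 + Pi.single κ.1 (Pi.single κ.2 (p.2 κ.1 κ.2))) =
      (p.1, tr (ix κ + 1) p.2)
    rw [tr_succ]

end Pool.Agent.Y195.RK
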